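import Pool.Agent.Lib.UDGClique.Final
import Pool.Agent.Lib.UDGConv.FinalL

/-!
# Convex curves and the clique number

Labels of `O(k log² w + log n)` bits if the centres in each unit square lie on `k` convex curves and the
clique number is `w`.
-/

namespace UDGConvW

open UDGCube

/-- **The decoder.** Both strings are cut into blocks (`UDGCube.cut`). Blocks `0, …, 8`: the names of the
unit cell of the vertex (block `4`) and of the eight cells around it; blocks `9, …, 17`: one label for
`UDGConv.decodeL` for each of these cells. If the cell of the second vertex is number `j` around the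
first vertex, `decodeL` is applied to the two labels for this pair of cells. -/
def decodeV (s t : List Bool) : Bool :=
  match (List.range 9).find? (fun j => decide ((cut s []).getD j [] = (cut t []).getD 4 [])) with
  | some j => UDGConv.decodeL ((cut s []).getD (9 + j) []) ((cut t []).getD (17 - j) [])
  | none => false

private theorem getD_names {α : Type*} (F G : ℕ → α) (d : α) {j : ℕ} (hj : j < 9) :
    ((List.range 9).map F ++ (List.range 9).map G).getD j d = F j := by
  rw [List.getD_append _ _ _ _ (by simpa using hj)]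
  simp [List.getD, hj]

private theorem getD_labs {α : Type*} (F G : ℕ → α) (d : α) {j : ℕ} (hj : j < 9) :
    ((List.range 9).map F ++ (List.range 9).map G).getD (9 + j) d = G j := by
  rw [List.getD_append_right _ _ _ _ (by simp)]
  simp [List.getD, hj]

private theorem sum_map_le (F : ℕ → ℕ) (B : ℕ) (h : ∀ j, F j ≤ B) :
    ((List.range 9).map F).sum ≤ 9 * B := by
  have := List.sum_le_card_nsmul ((List.range 9).map F) B (by
    intro x hx
    rw [List.mem_map] at hx
    obtain ⟨j, _, rfl⟩ := hx
    exact h j)
  simpa using this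

private theorem exists_labsV {n k w : ℕ} {K : ℤ → ℤ → Fin k → Set (EuclideanSpace ℝ (Fin 2))}
    (hK : ∀ a b i, Convex ℝ (K a b i)) (p : Fin n → EuclideanSpace ℝ (Fin 2))
    (hp : ∀ v, ∃ i, p v ∈ frontier (K ⌊p v 0⌋ ⌊p v 1⌋ i)) :
    ∃ L : Finset (Fin n) → Fin n → List Bool, ∀ S : Finset (Fin n), S.card ≤ 8 * w →
      (∀ v ∈ S, (L S v).length ≤ 9600 * k * (Nat.log 2 w + 1) ^ 2) ∧
      ∀ u ∈ S, ∀ v ∈ S, (UDGConv.decodeL (L S u) (L S v) = true ↔ dist (p u) (p v) ≤ 1) := by
  classical
  have key : ∀ S : Finset (Fin n), ∃ l : Fin n → List Bool, S.card ≤ 8 * w →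
      (∀ v ∈ S, (l v).length ≤ 9600 * k * (Nat.log 2 w + 1) ^ 2) ∧
      ∀ u ∈ S, ∀ v ∈ S, (UDGConv.decodeL (l u) (l v) = true ↔ dist (p u) (p v) ≤ 1) := by
    intro S
    by_cases hS : S.card ≤ 8 * w
    · obtain ⟨lab, h1, h2⟩ := UDGConv.mainL hK (p := fun i => p (S.equivFin.symm i))
        (fun i => hp (S.equivFin.symm i))
      refine ⟨fun v => if h : v ∈ S then lab (S.equivFin ⟨v, h⟩) else [], fun _ => ⟨?_, ?_⟩⟩
      · intro v hv
        simp only [hv, dif_pos]
        refine (h1 _).trans ?_
        have hL : Nat.log 2 S.card + 1 ≤ 4 * (Nat.log 2 w + 1) := by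
          have hw1 : w < 2 ^ (Nat.log 2 w + 1) := Nat.lt_pow_succ_log_self (by norm_num) w
          have h3 : S.card < 2 ^ (Nat.log 2 w + 1 + 3) := by
            rw [pow_add]
            omega
          have h5 : Nat.log 2 S.card < Nat.log 2 w + 1 + 3 := by
            rcases Nat.eq_zero_or_pos S.card with h0 | h0
            · rw [h0, Nat.log_zero_right]
              omega
            · exact Nat.log_lt_of_lt_pow h0.ne' h3
          omega
        calc 600 * k * (Nat.log 2 S.card + 1) ^ 2
            ≤ 600 * k * (4 * (Nat.log 2 w + 1)) ^ 2 :=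
              Nat.mul_le_mul_left _ (Nat.pow_le_pow_left hL 2)
          _ = 9600 * k * (Nat.log 2 w + 1) ^ 2 := by ring
      · intro u hu v hv
        simp only [hu, hv, dif_pos]
        rw [h2]
        simp
    · exact ⟨fun _ => [], fun h => absurd h hS⟩
  choose L hL using key
  exact ⟨L, hL⟩

theorem mainV {n k w : ℕ} {K : ℤ → ℤ → Fin k → Set (EuclideanSpace ℝ (Fin 2))}
    (hK : ∀ a b i, Convex ℝ (K a b i)) (p : Fin n → EuclideanSpace ℝ (Fin 2))
    (hp : ∀ v, ∃ i, p v ∈ frontier (K ⌊p v 0⌋ ⌊p v 1⌋ i))
    (hw : ∀ S : Finset (Fin n), (∀ u ∈ S, ∀ v ∈ S, dist (p u) (p v) ≤ 1) → S.card ≤ w) :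
    ∃ lab : Fin n → List Bool,
      (∀ v, (lab v).length ≤
        180000 * k * (Nat.log 2 w + 1) ^ 2 + 54 * (Nat.log 2 n + 1)) ∧
      ∀ u v, (decodeV (lab u) (lab v) = true ↔ dist (p u) (p v) ≤ 1) := by
  classical
  obtain ⟨nm, hnm, hinj⟩ := exists_names (fun v => cell (p v))
  obtain ⟨L, hL⟩ := exists_labsV (w := w) hK p hp
  let SS : ℤ × ℤ → ℤ × ℤ → Finset (Fin n) := fun z z' =>
    Finset.univ.filter fun v => cell (p v) = z ∨ cell (p v) = z'
  have hSS : ∀ z z', (SS z z').card ≤ 8 * w := by
    intro z z'
    have h1 : SS z z' ⊆ (Finset.univ.filter fun v => cell (p v) = z) ∪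
        (Finset.univ.filter fun v => cell (p v) = z') := by
      intro v hv
      simp only [SS, Finset.mem_filter, Finset.mem_univ, true_and, Finset.mem_union] at hv ⊢
      exact hv
    have h2 := (Finset.card_le_card h1).trans (Finset.card_union_le _ _)
    have h3 := cell_card p hw z
    have h4 := cell_card p hw z'
    omega
  have hsym : ∀ z z', SS z z' = SS z' z := by
    intro z z'
    ext v
    simp only [SS, Finset.mem_filter, Finset.mem_univ, true_and]
    exact or_comm
  let NM : Fin n → ℕ → List Bool := fun v j => nm (nb (cell (p v)) j)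
  let LB : Fin n → ℕ → List Bool := fun v j => L (SS (cell (p v)) (nb (cell (p v)) j)) v
  let BL : Fin n → List (List Bool) := fun v =>
    (List.range 9).map (NM v) ++ (List.range 9).map (LB v)
  have hmem : ∀ v j, v ∈ SS (cell (p v)) (nb (cell (p v)) j) := by
    intro v j
    simp [SS]
  refine ⟨fun v => glue (BL v), ?_, ?_⟩
  · intro v
    rw [glue_length]
    simp only [BL, List.map_append, List.map_map, List.sum_append]
    have h1 := sum_map_le ((fun w : List Bool => 2 * w.length + 2) ∘ NM v)
      (2 * (Nat.log 2 n + 1) + 2) (by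
        intro j
        have := hnm (nb (cell (p v)) j)
        simp only [Function.comp, NM]
        omega)
    have h2 := sum_map_le ((fun w : List Bool => 2 * w.length + 2) ∘ LB v)
      (2 * (9600 * k * (Nat.log 2 w + 1) ^ 2) + 2) (by
        intro j
        have := (hL _ (hSS (cell (p v)) (nb (cell (p v)) j))).1 v (hmem v j)
        simp only [Function.comp, LB]
        omega)
    have h3 : 9600 * k * (Nat.log 2 w + 1) ^ 2 * 18 ≤ 180000 * k * (Nat.log 2 w + 1) ^ 2 := by
      have : 9600 * k * (Nat.log 2 w + 1) ^ 2 * 18 = 172800 * (k * (Nat.log 2 w + 1) ^ 2) := by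
        ring
      rw [this]
      have : 180000 * k * (Nat.log 2 w + 1) ^ 2 = 180000 * (k * (Nat.log 2 w + 1) ^ 2) := by
        ring
      rw [this]
      exact Nat.mul_le_mul_right _ (by norm_num)
    omega
  · intro u v
    have hnb4 : ∀ z, nb z 4 = z := by
      intro z
      simp [nb]
    have hN : ∀ w j, j < 9 → (cut (glue (BL w)) []).getD j [] = NM w j := by
      intro w j hj
      rw [cut_glue]
      exact getD_names _ _ _ hj
    have hB : ∀ w j, j < 9 → (cut (glue (BL w)) []).getD (9 + j) [] = LB w j := by
      intro w j hj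
      rw [cut_glue]
      exact getD_labs _ _ _ hj
    have hN4 : (cut (glue (BL v)) []).getD 4 [] = nm (cell (p v)) := by
      rw [hN v 4 (by norm_num)]
      simp only [NM, hnb4]
    unfold decodeV
    cases hf : (List.range 9).find?
        (fun j => decide ((cut (glue (BL u)) []).getD j [] = (cut (glue (BL v)) []).getD 4 [])) with
    | none =>
      simp only [Bool.false_eq_true, false_iff]
      intro hd
      obtain ⟨j, hj, hcell⟩ := near_cell (p u) (p v) hd
      rw [List.find?_eq_none] at hf
      apply hf j (List.mem_range.2 hj)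
      rw [hN u j hj, hN4, decide_eq_true_eq]
      simp only [NM, hcell]
    | some j =>
      have hj : j < 9 := List.mem_range.1 (List.mem_of_find?_eq_some hf)
      have h1 := List.find?_some hf
      rw [decide_eq_true_eq, hN u j hj, hN4] at h1
      have hcell : nb (cell (p u)) j = cell (p v) := hinj v _ h1
      have hflip : nb (cell (p v)) (8 - j) = cell (p u) := by
        rw [← hcell]
        exact nb_flip _ j hj
      simp only []
      have e17 : 17 - j = 9 + (8 - j) := by omega
      rw [hB u j hj, e17, hB v (8 - j) (by omega)]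
      have e1 : LB u j = L (SS (cell (p u)) (cell (p v))) u := by
        simp only [LB, hcell]
      have e2 : LB v (8 - j) = L (SS (cell (p u)) (cell (p v))) v := by
        simp only [LB, hflip]
        rw [hsym]
      rw [e1, e2]
      exact (hL _ (hSS _ _)).2 u (by simp [SS]) v (by simp [SS])

end UDGConvW
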